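import Pool.Agent.Helper32.CT.Spec
import Pool.Agent.Helper45.CT.Glue

set_option autoImplicit false

namespace Pool.Agent.Helper17.CT

section maps
variable {D : Type} (M : CMap D)

theorem ct16_one (i x y z : Fin 3) (h1 : y ≠ x) (h2 : z ≠ y) (h3 : x ≠ z) :
    One (decide (x ≠ i)) (decide (y ≠ i)) (decide (z ≠ i)) := by
  unfold One
  revert i x y z
  decide

theorem ct16_count (i x y z : Fin 3) (h1 : y ≠ x) (h2 : z ≠ y) (h3 : x ≠ z) :
    (if x = i then 1 else 0) + (if y = i then 1 else 0) + (if z = i then 1 else 0) = 1 := by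
  revert i x y z
  decide

theorem ct16_colors [Finite D] (γ : D → Fin 3) (hacl : ∀ d, γ (M.a d) = γ d)
    (hprop : ∀ d, γ (M.s d) ≠ γ d) (X : D → Bool)
    (hX : M.VSet X) (h3 : M.bd X = 3) :
    ∃ q : Fin 3 → D, (∀ i, X (q i) = true ∧ X (M.a (q i)) = false ∧ γ (q i) = i) ∧
      ∀ d, X d = true → X (M.a d) = false → d = q (γ d) := by
  classical
  have := Fintype.ofFinite D
  set B : Fin 3 → Finset D := fun i => Finset.univ.filter
    (fun d => X d = true ∧ X (M.a d) = false ∧ γ d = i) with hB
  have hsum : (B 0).card + (B 1).card + (B 2).card = 3 := by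
    refine Eq.trans ?_ h3
    unfold CMap.bd
    rw [Nat.card_eq_fintype_card, Fintype.card_subtype]
    have hfib := Finset.card_eq_sum_card_fiberwise
      (s := Finset.univ.filter (fun d => X d = true ∧ X (M.a d) = false)) (f := γ)
      (t := Finset.univ) (fun _ _ => Finset.mem_coe.2 (Finset.mem_univ _))
    rw [Fin.sum_univ_three] at hfib
    simp only [Finset.filter_filter, and_assoc] at hfib
    exact hfib.symm
  have hA : ∀ i, 3 * (Finset.univ.filter (fun d => X d = true ∧ γ d = i)).card =
      (Finset.univ.filter (fun d => X d = true)).card := by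
    intro i
    let e : Equiv.Perm D := ⟨M.s, fun d => M.s (M.s d), fun d => M.s3 d, fun d => M.s3 d⟩
    rw [Finset.card_filter, Finset.card_filter]
    set g : D → ℕ := fun d => if X d = true ∧ γ d = i then 1 else 0 with hg
    have h1 : ∑ d, g (M.s d) = ∑ d, g d := Equiv.sum_comp e g
    have h2 : ∑ d, g (M.s (M.s d)) = ∑ d, g d := by
      rw [← h1]
      exact Equiv.sum_comp e (fun d => g (M.s d))
    have h4 : ∀ d, (if X d = true then 1 else 0) = g d + g (M.s d) + g (M.s (M.s d)) := by
      intro d
      simp only [hg, hX (M.s d), hX d]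
      by_cases hd : X d = true
      · have h5 := hprop d
        have h6 := hprop (M.s d)
        have h7 := hprop (M.s (M.s d))
        rw [M.s3] at h7
        simp only [hd, true_and, if_true]
        exact (ct16_count i _ _ _ h5 h6 h7).symm
      · simp [hd]
    rw [Finset.sum_congr rfl (fun d _ => h4 d), Finset.sum_add_distrib, Finset.sum_add_distrib,
      h1, h2]
    ring
  have hE : ∀ i, ∃ r, (Finset.univ.filter
      (fun d => X d = true ∧ X (M.a d) = true ∧ γ d = i)).card = 2 * r := by
    intro i
    have h1 : (((Finset.univ.filter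
      (fun d => X d = true ∧ X (M.a d) = true ∧ γ d = i)).card : ℕ) : ZMod 2) = 0 := by
      rw [Finset.card_eq_sum_ones, Nat.cast_sum]
      refine Finset.sum_involution (fun d _ => M.a d) ?_ ?_ ?_ ?_
      · intro d _
        push_cast
        decide
      · intro d _ _
        exact M.a1 d
      · intro d hd
        rw [Finset.mem_filter] at hd ⊢
        refine ⟨Finset.mem_univ _, hd.2.2.1, ?_, ?_⟩
        · rw [M.a2]; exact hd.2.1
        · rw [hacl]; exact hd.2.2.2
      · intro d _
        exact M.a2 d
    rw [ZMod.natCast_eq_zero_iff] at h1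
    exact h1
  have hS : ∀ i, (Finset.univ.filter (fun d => X d = true ∧ γ d = i)).card = (B i).card +
      (Finset.univ.filter (fun d => X d = true ∧ X (M.a d) = true ∧ γ d = i)).card := by
    intro i
    rw [hB, ← Finset.card_union_of_disjoint]
    · congr 1
      ext d
      simp only [Finset.mem_filter, Finset.mem_univ, true_and, Finset.mem_union]
      cases X (M.a d) <;> simp
    · rw [Finset.disjoint_left]
      intro d hd hd'
      rw [Finset.mem_filter] at hd hd'
      rw [hd.2.2.1] at hd'
      exact absurd hd'.2.2.1 (by decide)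
  have hone : ∀ i, (B i).card = 1 := by
    obtain ⟨r0, hr0⟩ := hE 0
    obtain ⟨r1, hr1⟩ := hE 1
    obtain ⟨r2, hr2⟩ := hE 2
    have a0 := hA 0
    have a1 := hA 1
    have a2 := hA 2
    have s0 := hS 0
    have s1 := hS 1
    have s2 := hS 2
    intro i
    fin_cases i
    · change (B 0).card = 1
      omega
    · change (B 1).card = 1
      omega
    · change (B 2).card = 1
      omega
  choose q hq using fun i => Finset.card_eq_one.1 (hone i)
  refine ⟨q, ?_, ?_⟩
  · intro i
    have : q i ∈ B i := by rw [hq]; exact Finset.mem_singleton_self _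
    exact (Finset.mem_filter.1 this).2
  · intro d h1 h2
    have : d ∈ B (γ d) := Finset.mem_filter.2 ⟨Finset.mem_univ _, h1, h2, rfl⟩
    rw [hq] at this
    exact Finset.mem_singleton.1 this

/-- the star darts are permuted among themselves -/
theorem ct16_star (X : D → Bool) (hX : M.VSet X)
    (M' : CMap {d : D // X d = true ∨ X (M.a d) = true}) (h : M.IsContr X M')
    (d : {d : D // X d = true ∨ X (M.a d) = true}) (hd : X d.1 = false) :
    X (M'.s d).1 = false := by
  by_contra hcon
  rw [Bool.not_eq_false] at hcon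
  have h1 := h.hs _ hcon
  have h2 : X (M'.s (M'.s d)).1 = true := by rw [h1, hX]; exact hcon
  have h3 := h.hs _ h2
  rw [M'.s3] at h3
  rw [h3, hX, h2] at hd
  exact absurd hd (by decide)

theorem ct16_prop [Finite D] (γ : D → Fin 3) (hT : M.Tri γ) (X : D → Bool)
    (hX : M.VSet X) (h3 : M.bd X = 3)
    (M' : CMap {d : D // X d = true ∨ X (M.a d) = true}) (h : M.IsContr X M')
    (d : {d : D // X d = true ∨ X (M.a d) = true}) : γ (M'.s d).1 ≠ γ d.1 := by
  obtain ⟨q, hq, hqu⟩ := ct16_colors M γ hT.acl hT.prop X hX h3
  by_cases hd : X d.1 = true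
  · rw [h.hs _ hd]
    exact hT.prop _
  · rw [Bool.not_eq_true] at hd
    intro hcon
    have hd' := ct16_star M X hX M' h d hd
    have e1 : ∀ w : {d : D // X d = true ∨ X (M.a d) = true}, X w.1 = false →
        w.1 = M.a (q (γ w.1)) := by
      intro w hw
      have hw2 : X (M.a w.1) = true := by
        rcases w.2 with h1 | h1
        · rw [hw] at h1; exact absurd h1 (by decide)
        · exact h1
      have := hqu (M.a w.1) hw2 (by rw [M.a2]; exact hw)
      rw [hT.acl] at this
      rw [← this, M.a2]
    apply M'.s1 d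
    apply Subtype.ext
    rw [e1 _ hd', e1 _ hd, hcon]

theorem ct16_veq_conn {D' : Type} (M' : CMap D') (U : D' → Bool) {x z w : D'}
    (h : Conn M'.s M'.a U x z) (hz : U z = true) (hw : U w = true) (hzw : M'.VEq z w) :
    Conn M'.s M'.a U x w := by
  rcases hzw with h1 | h1 | h1
  · rw [h1]; exact h
  · exact h.tail ⟨hz, hw, Or.inr (Or.inl h1)⟩
  · exact h.tail ⟨hz, hw, Or.inr (Or.inr h1)⟩

theorem ct16_ham [Finite D] (γ : D → Fin 3) (hT : M.Tri γ) (X : D → Bool)
    (hX : M.VSet X) (h3 : M.bd X = 3)
    (M' : CMap {d : D // X d = true ∨ X (M.a d) = true}) (h : M.IsContr X M') (i : Fin 3) :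
    M'.IsHam (fun d => decide (γ d.1 ≠ i)) := by
  set U' : {d : D // X d = true ∨ X (M.a d) = true} → Bool := fun d => decide (γ d.1 ≠ i) with hU'
  refine ⟨?_, ?_, ?_⟩
  · intro d
    change decide (γ (M'.a d).1 ≠ i) = decide (γ d.1 ≠ i)
    rw [h.ha, hT.acl]
  · intro d
    have h1 := ct16_prop M γ hT X hX h3 M' h d
    have h2 := ct16_prop M γ hT X hX h3 M' h (M'.s d)
    have h4 := ct16_prop M γ hT X hX h3 M' h (M'.s (M'.s d))
    rw [M'.s3] at h4
    exact ct16_one i _ _ _ h1 h2 h4
  · intro x y hx hy
    have hconn := (hT.ham i).conn x.1 y.1 hx hy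
    -- invariant
    have key : ∀ z, Conn M.s M.a (fun d => decide (γ d ≠ i)) x.1 z →
        (∀ hz : X z = true ∨ X (M.a z) = true, Conn M'.s M'.a U' x ⟨z, hz⟩) ∧
        (X z = false → ∀ w : {d : D // X d = true ∨ X (M.a d) = true}, X w.1 = false →
          U' w = true → Conn M'.s M'.a U' x w) := by
      intro z hz
      induction hz with
      | refl =>
        refine ⟨fun _ => Relation.ReflTransGen.refl, ?_⟩
        intro hz w hw hUw
        exact ct16_veq_conn M' U' Relation.ReflTransGen.refl hx hUw (h.star x w hz hw)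
      | @tail z z' _ hstep ih =>
        obtain ⟨hz, hz', hc⟩ := hstep
        have hUz : ∀ (hm : X z = true ∨ X (M.a z) = true), U' ⟨z, hm⟩ = true := fun _ => hz
        have hUz' : ∀ (hm : X z' = true ∨ X (M.a z') = true), U' ⟨z', hm⟩ = true := fun _ => hz'
        rcases hc with hc | hc
        · -- step along an edge
          by_cases hXz : X z = true
          · have hm : X z = true ∨ X (M.a z) = true := Or.inl hXz
            have hm' : X z' = true ∨ X (M.a z') = true := Or.inr (by rw [hc, M.a2]; exact hXz)
            have h1 := ih.1 hm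
            have h2 : Conn M'.s M'.a U' x ⟨z', hm'⟩ := by
              refine h1.tail ⟨hUz hm, hUz' hm', Or.inl ?_⟩
              apply Subtype.ext
              rw [h.ha]
              exact hc
            refine ⟨fun _ => h2, ?_⟩
            intro hXz' w hw hUw
            exact ct16_veq_conn M' U' h2 (hUz' hm') hUw (h.star _ w hXz' hw)
          · rw [Bool.not_eq_true] at hXz
            refine ⟨?_, ?_⟩
            · intro hm'
              have hXz' : X z' = true := by
                rcases hm' with h1 | h1
                · exact h1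
                · rw [hc, M.a2, hXz] at h1
                  exact absurd h1 (by decide)
              have hm : X z = true ∨ X (M.a z) = true := Or.inr (by rw [← hc]; exact hXz')
              refine (ih.1 hm).tail ⟨hUz hm, hUz' _, Or.inl ?_⟩
              apply Subtype.ext
              rw [h.ha]
              exact hc
            · intro _ w hw hUw
              exact ih.2 hXz w hw hUw
        · have hXzz' : X z' = X z := by
            rcases hc with hc | hc
            · rw [hc, hX]
            · rw [hc, hX, hX]
          by_cases hXz : X z = true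
          · have hm : X z = true ∨ X (M.a z) = true := Or.inl hXz
            have hXz' : X z' = true := by rw [hXzz']; exact hXz
            have h1 := h.hs ⟨z, hm⟩ hXz
            have h2 : X (M'.s ⟨z, hm⟩).1 = true := by rw [h1, hX]; exact hXz
            have h4 := h.hs _ h2
            refine ⟨?_, ?_⟩
            · intro hm'
              refine (ih.1 hm).tail ⟨hUz hm, hUz' _, Or.inr ?_⟩
              rcases hc with hc | hc
              · left
                apply Subtype.ext
                rw [h1]
                exact hc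
              · right
                apply Subtype.ext
                rw [h4, h1]
                exact hc
            · intro hcon
              rw [hXz'] at hcon
              exact absurd hcon (by decide)
          · rw [Bool.not_eq_true] at hXz
            have hXz' : X z' = false := by rw [hXzz']; exact hXz
            refine ⟨?_, ?_⟩
            · intro hm'
              exact ih.2 hXz ⟨z', hm'⟩ hXz' (hUz' hm')
            · intro _ w hw hUw
              exact ih.2 hXz w hw hUw
    exact (key y.1 hconn).1 y.2

/-- The piece inside `X`. -/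
noncomputable def ct16_inner (X : D → Bool) (hX : M.VSet X) (q : Fin 3 → D)
    (hq : ∀ i, X (q i) = true ∧ X (M.a (q i)) = false) (hqi : Function.Injective q)
    (hqu : ∀ d, X d = true → X (M.a d) = false → ∃ i, d = q i) :
    Inner {d : D // X d = true} 3 where
  s := fun x => ⟨M.s x.1, by rw [hX]; exact x.2⟩
  e := fun x => if h : X (M.a x.1) = true then ⟨M.a x.1, h⟩ else x
  q := fun i => ⟨q i, (hq i).1⟩
  s3 := fun x => Subtype.ext (M.s3 x.1)
  s1 := fun x h => M.s1 x.1 (congrArg Subtype.val h)
  e2 := by
    intro x hx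
    have h1 : X (M.a x.1) = true := by
      by_contra hcon
      rw [Bool.not_eq_true] at hcon
      obtain ⟨i, hi⟩ := hqu x.1 x.2 hcon
      exact hx i (Subtype.ext hi)
    have h2 : X (M.a (M.a x.1)) = true := by rw [M.a2]; exact x.2
    simp only [h1, dite_true, h2]
    exact Subtype.ext (M.a2 x.1)
  e1 := by
    intro x hx hcon
    have h1 : X (M.a x.1) = true := by
      by_contra hcon
      rw [Bool.not_eq_true] at hcon
      obtain ⟨i, hi⟩ := hqu x.1 x.2 hcon
      exact hx i (Subtype.ext hi)
    simp only [h1, dite_true] at hcon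
    exact M.a1 x.1 (congrArg Subtype.val hcon)
  eq := by
    intro x hx j hcon
    have h1 : X (M.a x.1) = true := by
      by_contra hcon
      rw [Bool.not_eq_true] at hcon
      obtain ⟨i, hi⟩ := hqu x.1 x.2 hcon
      exact hx i (Subtype.ext hi)
    simp only [h1, dite_true] at hcon
    have h2 := congrArg Subtype.val hcon
    simp only at h2
    have h3 := (hq j).2
    rw [← h2, M.a2, x.2] at h3
    exact absurd h3 (by decide)
  qi := fun i j h => hqi (congrArg Subtype.val h)

theorem ct16_inner_e (X : D → Bool) (hX : M.VSet X) (q : Fin 3 → D)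
    (hq : ∀ i, X (q i) = true ∧ X (M.a (q i)) = false) (hqi : Function.Injective q)
    (hqu : ∀ d, X d = true → X (M.a d) = false → ∃ i, d = q i)
    (x : {d : D // X d = true}) (hx : ∀ j, x ≠ (ct16_inner M X hX q hq hqi hqu).q j) :
    ((ct16_inner M X hX q hq hqi hqu).e x).1 = M.a x.1 := by
  have h1 : X (M.a x.1) = true := by
    by_contra hcon
    rw [Bool.not_eq_true] at hcon
    obtain ⟨i, hi⟩ := hqu x.1 x.2 hcon
    exact hx i (Subtype.ext hi)
  change (dite (X (M.a x.1) = true) (fun h => (⟨M.a x.1, h⟩ : {d : D // X d = true}))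
    (fun _ => x)).1 = _
  rw [dif_pos h1]

/-- An involution of three points with exactly one fixed point `c` is determined by `c`. -/
theorem ct16_invol (b b' : Fin 3 → Fin 3) (c : Fin 3) (h : ∀ j, b (b j) = j)
    (h' : ∀ j, b' (b' j) = j) (hc : ∀ j, b j ≠ j ↔ j ≠ c) (hc' : ∀ j, b' j ≠ j ↔ j ≠ c) :
    b = b' := by
  revert b b' c
  decide

/-- CT-16c -/
theorem contr_tri [Finite D] (γ : D → Fin 3) (hT : M.Tri γ) (X : D → Bool)
    (hX : M.VSet X) (h3 : M.bd X = 3)
    (M' : CMap {d : D // X d = true ∨ X (M.a d) = true}) (h : M.IsContr X M') :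
    M'.Tri (fun d => γ d.1) := by
  classical
  refine ⟨?_, ct16_prop M γ hT X hX h3 M' h, ct16_ham M γ hT X hX h3 M' h, ?_⟩
  · intro d
    rw [h.ha, hT.acl]
  · intro V hV
    obtain ⟨q, hq, hqu⟩ := ct16_colors M γ hT.acl hT.prop X hX h3
    have hqi : Function.Injective q := by
      intro i j hij
      rw [← (hq i).2.2, ← (hq j).2.2, hij]
    have hqu' : ∀ d, X d = true → X (M.a d) = false → ∃ i, d = q i :=
      fun d h1 h2 => ⟨γ d, hqu d h1 h2⟩
    set F := ct16_inner M X hX q (fun i => ⟨(hq i).1, (hq i).2.1⟩) hqi hqu' with hF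
    have hFe : ∀ x, (∀ j, x ≠ F.q j) → (F.e x).1 = M.a x.1 :=
      ct16_inner_e M X hX q (fun i => ⟨(hq i).1, (hq i).2.1⟩) hqi hqu'
    have hne : Nonempty {d : D // X d = true} := ⟨⟨q 0, (hq 0).1⟩⟩
    let E : Emb F M :=
      { ι := fun x => x.1
        inj := Subtype.val_injective
        hs := fun x => rfl
        he := hFe }
    let E' : Emb F M' :=
      { ι := fun x => ⟨x.1, Or.inl x.2⟩
        inj := fun x y hxy => Subtype.ext (Subtype.mk.inj hxy)
        hs := fun x => Subtype.ext (h.hs ⟨x.1, Or.inl x.2⟩ x.2).symm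
        he := fun x hx => by
          apply Subtype.ext
          rw [h.ha]
          exact hFe x hx }
    -- star darts
    let st : Fin 3 → {d : D // X d = true ∨ X (M.a d) = true} := fun i =>
      ⟨M.a (q i), Or.inr (by rw [M.a2]; exact (hq i).1)⟩
    have hstX : ∀ i, X (st i).1 = false := fun i => (hq i).2.1
    have hstγ : ∀ i, γ (st i).1 = i := fun i => by
      change γ (M.a (q i)) = i
      rw [hT.acl]; exact (hq i).2.2
    have hstu : ∀ w : {d : D // X d = true ∨ X (M.a d) = true}, X w.1 = false →
        w = st (γ w.1) := by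
      intro w hw
      apply Subtype.ext
      have hw2 : X (M.a w.1) = true := by
        rcases w.2 with h1 | h1
        · rw [hw] at h1; exact absurd h1 (by decide)
        · exact h1
      have := hqu (M.a w.1) hw2 (by rw [M.a2]; exact hw)
      rw [hT.acl] at this
      change w.1 = M.a (q (γ w.1))
      rw [← this, M.a2]
    have hVq : ∀ i, V (E'.ι (F.q i)) = V (st i) := by
      intro i
      rw [← hV.acl]
      congr 1
      apply Subtype.ext
      rw [h.ha]
      rfl
    -- the omitted colour
    obtain ⟨c, hc⟩ : ∃ c : Fin 3, ∀ i, V (st i) = true ↔ i ≠ c := by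
      have h1 := hV.one (st 0)
      have hs1 := ct16_star M X hX M' h (st 0) (hstX 0)
      have hs2 := ct16_star M X hX M' h _ hs1
      have e1 := hstu _ hs1
      have e2 := hstu _ hs2
      have p1 := ct16_prop M γ hT X hX h3 M' h (st 0)
      have p2 := ct16_prop M γ hT X hX h3 M' h (M'.s (st 0))
      have p3 := ct16_prop M γ hT X hX h3 M' h (M'.s (M'.s (st 0)))
      rw [M'.s3] at p3
      set g1 := γ (M'.s (st 0)).1 with hg1
      set g2 := γ (M'.s (M'.s (st 0))).1 with hg2
      rw [e2, e1] at h1
      rw [hstγ 0] at p1 p3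
      have hcases : (g1 = 1 ∧ g2 = 2) ∨ (g1 = 2 ∧ g2 = 1) := by
        revert p1 p2 p3
        generalize g1 = u
        generalize g2 = v
        revert u v
        decide
      have hV3 : One (V (st 0)) (V (st g1)) (V (st g2)) := h1
      rcases hcases with ⟨a1, a2⟩ | ⟨a1, a2⟩
      · rw [a1, a2] at hV3
        rcases hV3 with ⟨b0, b1, b2⟩ | ⟨b0, b1, b2⟩ | ⟨b0, b1, b2⟩
        · refine ⟨0, fun i => ?_⟩; fin_cases i <;> simp [b0, b1, b2]
        · refine ⟨1, fun i => ?_⟩; fin_cases i <;> simp [b0, b1, b2]
        · refine ⟨2, fun i => ?_⟩; fin_cases i <;> simp [b0, b1, b2]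
      · rw [a1, a2] at hV3
        rcases hV3 with ⟨b0, b1, b2⟩ | ⟨b0, b1, b2⟩ | ⟨b0, b1, b2⟩
        · refine ⟨0, fun i => ?_⟩; fin_cases i <;> simp [b0, b1, b2]
        · refine ⟨2, fun i => ?_⟩; fin_cases i <;> simp [b0, b1, b2]
        · refine ⟨1, fun i => ?_⟩; fin_cases i <;> simp [b0, b1, b2]
    have hfin' : Finite E'.HSet := Subtype.finite
    have hfin : Finite E.HSet := Subtype.finite
    obtain ⟨b', ε', hb'⟩ := exists_spec E'.outer _ (sys_of_ham E' V hV)
    have ht := hamF_of_ham E' V hV b' ε' hb'
    have hO := sys_of_ham E _ (hT.ham c)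
    obtain ⟨b, ε, hb⟩ := exists_spec E.outer _ hO
    have hbb : b = b' := by
      apply ct16_invol b b' c hb.inv hb'.inv
      · intro j
        rw [← hb.use j]
        change decide (γ (q j) ≠ c) = true ↔ j ≠ c
        rw [decide_eq_true_iff, (hq j).2.2]
      · intro j
        rw [← hb'.use j]
        change V (E'.ι (F.q j)) = true ↔ j ≠ c
        rw [hVq, hc]
    rw [← hbb] at ht
    obtain ⟨l, hl⟩ := hT.all _ (glue_ham E _ _ b ε hO hb ht)
    refine ⟨l, ?_⟩
    have hin : ∀ d : {d : D // X d = true ∨ X (M.a d) = true}, X d.1 = true →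
        V d = decide (γ d.1 ≠ l) := by
      intro d hd
      have h1 := glue_inner E (fun x => V (E'.ι x)) (fun d => decide (γ d.1 ≠ c)) ⟨d.1, hd⟩
      rw [hl] at h1
      exact h1.symm
    funext d
    by_cases hd : X d.1 = true
    · exact hin d hd
    · rw [Bool.not_eq_true] at hd
      have h1 : X (M'.a d).1 = true := by
        rw [h.ha]
        rcases d.2 with h1 | h1
        · rw [hd] at h1; exact absurd h1 (by decide)
        · exact h1
      have h2 := hin _ h1
      rw [hV.acl, h.ha, hT.acl] at h2
      exact h2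

end maps

end Pool.Agent.Helper17.CT
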